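import Mathlib
import Pool.Agent.Helper44.TOT.Defs

set_option autoImplicit false

namespace Pool.Agent.Helper26.TOT

open Finset

/-- reciprocals of the integers up to `y` free of primes of `F` -/
noncomputable def SF (F : Finset ℕ) (y : ℕ) : ℝ :=
  ∑ n ∈ (Icc 1 y).filter (fun n => ∀ l ∈ F, ¬ l ∣ n), (1 : ℝ) / n

theorem SF_insert (F : Finset ℕ) (y l : ℕ) (hl : l.Prime) :
    (1 - 1 / (l : ℝ)) * SF F y ≤ SF (insert l F) y := by
  classical
  have hl0 : (0 : ℝ) < l := by exact_mod_cast hl.pos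
  have h1 : SF F y = SF (insert l F) y +
      ∑ n ∈ ((Icc 1 y).filter (fun n => ∀ l ∈ F, ¬ l ∣ n)).filter (fun n => l ∣ n), (1 : ℝ) / n := by
    unfold SF
    rw [← Finset.sum_filter_add_sum_filter_not ((Icc 1 y).filter (fun n => ∀ l ∈ F, ¬ l ∣ n))
      (fun n => l ∣ n), add_comm]
    congr 1
    apply Finset.sum_congr _ (fun _ _ => rfl)
    ext n
    simp only [mem_filter, mem_insert, forall_eq_or_imp]
    tauto
  have h2 : ∑ n ∈ ((Icc 1 y).filter (fun n => ∀ l ∈ F, ¬ l ∣ n)).filter (fun n => l ∣ n), (1 : ℝ) / n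
      ≤ 1 / (l : ℝ) * SF F y := by
    unfold SF
    rw [Finset.mul_sum]
    have hinj : Set.InjOn (fun n => n / l)
        (((Icc 1 y).filter (fun n => ∀ l ∈ F, ¬ l ∣ n)).filter (fun n => l ∣ n) : Finset ℕ) := by
      intro a ha b hb hab
      have ha' := (mem_filter.1 ha).2
      have hb' := (mem_filter.1 hb).2
      simp only at hab
      rw [← Nat.div_mul_cancel ha', ← Nat.div_mul_cancel hb', hab]
    calc ∑ n ∈ ((Icc 1 y).filter (fun n => ∀ l ∈ F, ¬ l ∣ n)).filter (fun n => l ∣ n), (1 : ℝ) / n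
        = ∑ n ∈ ((Icc 1 y).filter (fun n => ∀ l ∈ F, ¬ l ∣ n)).filter (fun n => l ∣ n),
            1 / (l : ℝ) * (1 / ((n / l : ℕ) : ℝ)) := by
          apply Finset.sum_congr rfl
          intro n hn
          have hn' := (mem_filter.1 hn).2
          obtain ⟨m, rfl⟩ := hn'
          rw [Nat.mul_div_cancel_left m hl.pos]
          push_cast
          rw [one_div_mul_one_div]
      _ = ∑ m ∈ (((Icc 1 y).filter (fun n => ∀ l ∈ F, ¬ l ∣ n)).filter (fun n => l ∣ n)).image
            (fun n => n / l), 1 / (l : ℝ) * (1 / (m : ℝ)) := by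
          rw [Finset.sum_image hinj]
      _ ≤ _ := by
          apply Finset.sum_le_sum_of_subset_of_nonneg
          · intro m hm
            obtain ⟨n, hn, rfl⟩ := mem_image.1 hm
            rw [mem_filter, mem_filter, mem_Icc] at hn
            obtain ⟨⟨⟨h3, h4⟩, h5⟩, h6⟩ := hn
            rw [mem_filter, mem_Icc]
            refine ⟨⟨?_, (Nat.div_le_self n l).trans h4⟩, ?_⟩
            · exact Nat.div_pos (Nat.le_of_dvd (by omega) h6) hl.pos
            · intro r hr hdvd
              exact h5 r hr (hdvd.trans (Nat.div_dvd_of_dvd h6))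
          · intro _ _ _
            positivity
  rw [sub_mul, one_mul]
  linarith

theorem SF_ge (F : Finset ℕ) (hF : ∀ l ∈ F, l.Prime) (y : ℕ) :
    (∏ l ∈ F, (1 - 1 / (l : ℝ))) * Real.log (y + 1) ≤ SF F y := by
  classical
  induction F using Finset.induction_on with
  | empty =>
    simp only [Finset.prod_empty, one_mul]
    have := log_add_one_le_harmonic y
    rw [harmonic_eq_sum_Icc] at this
    unfold SF
    simp only [notMem_empty, IsEmpty.forall_iff, implies_true, Finset.filter_true]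
    push_cast at this
    simpa [one_div] using this
  | insert l F hl ih =>
    rw [Finset.prod_insert hl, mul_assoc]
    have h1 := ih (fun r hr => hF r (mem_insert_of_mem hr))
    have hlp := hF l (mem_insert_self _ _)
    have h2 : (0 : ℝ) ≤ 1 - 1 / (l : ℝ) := by
      have : (1 : ℝ) ≤ l := by exact_mod_cast hlp.one_le
      have := (div_le_one (by linarith : (0 : ℝ) < l)).2 this
      linarith
    exact (mul_le_mul_of_nonneg_left h1 h2).trans (SF_insert F y l hlp)

theorem hlow : Pool.Agent.Helper44.TOT.HLow := by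
  classical
  intro Q y hQ
  have h1 := SF_ge Q.primeFactors (fun l hl => Nat.prime_of_mem_primeFactors hl) y
  have h2 : ((Q.totient : ℝ) / Q) = ∏ l ∈ Q.primeFactors, (1 - 1 / (l : ℝ)) := by
    have h3 := Nat.totient_eq_mul_prod_factors Q
    have h4 : (Q.totient : ℝ) = Q * ∏ p ∈ Q.primeFactors, (1 - (p : ℝ)⁻¹) := by
      have := congrArg (fun q : ℚ => (q : ℝ)) h3
      push_cast at this
      exact this
    have hQ0 : (Q : ℝ) ≠ 0 := by
      have : (1 : ℝ) ≤ Q := by exact_mod_cast hQ
      linarith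
    rw [h4]
    simp only [one_div]
    field_simp
  rw [h2]
  refine h1.trans (le_of_eq ?_)
  unfold SF
  apply Finset.sum_congr _ (fun _ _ => rfl)
  ext n
  simp only [mem_filter, mem_Icc, Nat.mem_primeFactors]
  constructor
  · rintro ⟨h3, h4⟩
    refine ⟨h3, ?_⟩
    rw [Nat.coprime_iff_gcd_eq_one] 
    by_contra hne
    obtain ⟨p, hp, hpd⟩ := Nat.exists_prime_and_dvd hne
    exact h4 p ⟨hp, hpd.trans (Nat.gcd_dvd_right _ _), by omega⟩ (hpd.trans (Nat.gcd_dvd_left _ _))
  · rintro ⟨h3, h4⟩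
    refine ⟨h3, ?_⟩
    rintro l ⟨hl, hlQ, _⟩ hln
    exact hl.one_lt.ne' (Nat.eq_one_of_dvd_coprimes h4 hln hlQ)

end Pool.Agent.Helper26.TOT
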