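import Mathlib
import Pool.Agent.Helper44.TOT.Defs

set_option autoImplicit false

namespace Pool.Agent.Helper26.TOT

open Finset ArithmeticFunction

theorem sum_divisors_pow_Om (k : ℕ) : ∀ N : ℕ, N ≠ 0 →
    ∑ n ∈ N.divisors, k ^ (cardFactors n) ≤ (k + 1) ^ (cardFactors N) := by
  intro N
  induction N using induction_on_primes with
  | zero => intro h; exact absurd rfl h
  | one => intro _; simp
  | prime_mul p a hp ih =>
    intro hne
    have ha : a ≠ 0 := by rintro rfl; simp at hne
    have ih' := ih ha
    have hΩ : ∀ m : ℕ, m ≠ 0 → cardFactors (p * m) = cardFactors m + 1 := by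
      intro m hm
      rw [cardFactors_mul hp.ne_zero hm, cardFactors_apply_prime hp, add_comm]
    have hsub : (p * a).divisors ⊆ a.divisors ∪ a.divisors.image (fun m => p * m) := by
      intro d hd
      rw [Nat.mem_divisors] at hd
      rw [mem_union, mem_image]
      by_cases hpd : p ∣ d
      · right
        obtain ⟨m, rfl⟩ := hpd
        refine ⟨m, ?_, rfl⟩
        rw [Nat.mem_divisors]
        exact ⟨Nat.dvd_of_mul_dvd_mul_left hp.pos hd.1, ha⟩
      · left
        rw [Nat.mem_divisors]
        refine ⟨?_, ha⟩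
        exact (Nat.Coprime.dvd_mul_left ((Nat.Prime.coprime_iff_not_dvd hp).2 hpd).symm).1 hd.1
    calc ∑ n ∈ (p * a).divisors, k ^ (cardFactors n)
        ≤ ∑ n ∈ a.divisors ∪ a.divisors.image (fun m => p * m), k ^ (cardFactors n) :=
          Finset.sum_le_sum_of_subset hsub
      _ ≤ ∑ n ∈ a.divisors, k ^ (cardFactors n) +
            ∑ n ∈ a.divisors.image (fun m => p * m), k ^ (cardFactors n) := by
          rw [← Finset.sum_union_inter]
          exact Nat.le_add_right _ _
      _ = ∑ n ∈ a.divisors, k ^ (cardFactors n) +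
            ∑ n ∈ a.divisors, k ^ (cardFactors n) * k := by
          congr 1
          rw [Finset.sum_image]
          · apply Finset.sum_congr rfl
            intro m hm
            rw [hΩ m (Nat.pos_of_mem_divisors hm).ne', pow_succ]
          · intro x _ y _ h
            exact Nat.eq_of_mul_eq_mul_left hp.pos h
      _ = (∑ n ∈ a.divisors, k ^ (cardFactors n)) * (k + 1) := by
          rw [← Finset.sum_mul]; ring
      _ ≤ (k + 1) ^ (cardFactors a) * (k + 1) := Nat.mul_le_mul_right _ ih'
      _ = _ := by rw [hΩ a ha, pow_succ]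

theorem local_eq (k n : ℕ) (hn : n ≠ 0) :
    ∏ l ∈ n.primeFactors, ((k : ℝ) / l) ^ (n.factorization l) = (k : ℝ) ^ (cardFactors n) / n := by
  simp only [div_pow]
  rw [Finset.prod_div_distrib]
  congr 1
  · rw [Finset.prod_pow_eq_pow_sum, cardFactors_eq_sum_factorization]
    rfl
  · have := Nat.prod_factorization_pow_eq_self hn
    rw [Finsupp.prod, Nat.support_factorization] at this
    conv_rhs => rw [← this]
    push_cast
    rfl

theorem hpow : Pool.Agent.Helper44.TOT.HPow := by
  classical
  intro k Q y z _ hz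
  have hloc : ∀ z : ℕ, ∀ k : ℕ, ∑ n ∈ (Finset.Icc 1 z).filter (fun n => Nat.Coprime n Q),
        ∏ l ∈ n.primeFactors, ((k : ℝ) / l) ^ (n.factorization l) =
      ∑ n ∈ (Finset.Icc 1 z).filter (fun n => Nat.Coprime n Q), (k : ℝ) ^ (cardFactors n) / n := by
    intro z k
    apply Finset.sum_congr rfl
    intro n hn
    rw [mem_filter, mem_Icc] at hn
    exact local_eq k n (by omega)
  rw [hloc]
  have key : ∀ k : ℕ, (∑ n ∈ (Finset.Icc 1 y).filter (fun n => Nat.Coprime n Q), (1 : ℝ) / n) ^ k ≤
      ∑ n ∈ (Finset.Icc 1 (y ^ k)).filter (fun n => Nat.Coprime n Q),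
        (k : ℝ) ^ (cardFactors n) / n := by
    intro k
    induction k with
    | zero =>
      simp only [pow_zero]
      have h1 : (1 : ℕ) ∈ (Finset.Icc 1 1).filter (fun n => Nat.Coprime n Q) := by simp
      have := Finset.single_le_sum
        (f := fun n : ℕ => ((0 : ℕ) : ℝ) ^ (cardFactors n) / n)
        (fun n _ => by positivity) h1
      simpa using this
    | succ k ih =>
      have hS0 : 0 ≤ ∑ n ∈ (Finset.Icc 1 y).filter (fun n => Nat.Coprime n Q), (1 : ℝ) / n :=
        Finset.sum_nonneg fun n _ => by positivity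
      rw [pow_succ]
      refine (mul_le_mul_of_nonneg_right ih hS0).trans ?_
      rw [Finset.sum_mul_sum]
      set U := (Finset.Icc 1 (y ^ k)).filter (fun n => Nat.Coprime n Q) with hU
      set V := (Finset.Icc 1 y).filter (fun n => Nat.Coprime n Q) with hV
      set W := (Finset.Icc 1 (y ^ (k + 1))).filter (fun n => Nat.Coprime n Q) with hW
      rw [← Finset.sum_product']
      have hmaps : ∀ x ∈ U ×ˢ V, x.1 * x.2 ∈ W := by
        intro x hx
        rw [mem_product, hU, hV, mem_filter, mem_filter, mem_Icc, mem_Icc] at hx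
        rw [hW, mem_filter, mem_Icc]
        refine ⟨⟨?_, ?_⟩, Nat.Coprime.mul_left hx.1.2 hx.2.2⟩
        · exact Nat.mul_pos hx.1.1.1 hx.2.1.1
        · rw [pow_succ]; exact Nat.mul_le_mul hx.1.1.2 hx.2.1.2
      rw [← Finset.sum_fiberwise_of_maps_to hmaps]
      apply Finset.sum_le_sum
      intro N hN
      rw [hW, mem_filter, mem_Icc] at hN
      have hN0 : N ≠ 0 := by omega
      have hNr : (0 : ℝ) < N := by exact_mod_cast hN.1.1
      calc ∑ x ∈ (U ×ˢ V).filter (fun x => x.1 * x.2 = N),
            (k : ℝ) ^ (cardFactors x.1) / x.1 * (1 / (x.2 : ℝ))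
          = ∑ x ∈ (U ×ˢ V).filter (fun x => x.1 * x.2 = N), (k : ℝ) ^ (cardFactors x.1) / N := by
            apply Finset.sum_congr rfl
            intro x hx
            have h2 := (mem_filter.1 hx).2
            rw [← h2]
            push_cast
            rw [div_mul_div_comm, mul_one]
        _ = ∑ n ∈ ((U ×ˢ V).filter (fun x => x.1 * x.2 = N)).image Prod.fst,
              (k : ℝ) ^ (cardFactors n) / N := by
            rw [Finset.sum_image]
            intro a ha b hb hab
            have ha2 := (mem_filter.1 ha).2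
            have hb2 := (mem_filter.1 hb).2
            have ha1 : a.1 ≠ 0 := by
              intro h0; rw [h0, zero_mul] at ha2; omega
            have : a.2 = b.2 := by
              apply Nat.eq_of_mul_eq_mul_left (Nat.pos_of_ne_zero ha1)
              rw [ha2, hab, hb2]
            exact Prod.ext hab this
        _ ≤ ∑ n ∈ N.divisors, (k : ℝ) ^ (cardFactors n) / N := by
            apply Finset.sum_le_sum_of_subset_of_nonneg
            · intro n hn
              obtain ⟨x, hx, rfl⟩ := mem_image.1 hn
              rw [Nat.mem_divisors]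
              exact ⟨⟨x.2, (mem_filter.1 hx).2.symm⟩, hN0⟩
            · intro _ _ _
              positivity
        _ = (∑ n ∈ N.divisors, (k : ℝ) ^ (cardFactors n)) / N := by
            rw [Finset.sum_div]
        _ ≤ _ := by
            apply div_le_div_of_nonneg_right _ hNr.le
            exact_mod_cast sum_divisors_pow_Om k N hN0
  refine (key k).trans ?_
  apply Finset.sum_le_sum_of_subset_of_nonneg
  · intro n hn
    rw [mem_filter, mem_Icc] at hn ⊢
    exact ⟨⟨hn.1.1, hn.1.2.trans hz⟩, hn.2⟩
  · intro _ _ _
    positivity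

end Pool.Agent.Helper26.TOT
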