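import Mathlib
import Pool.Agent.Helper44.TOT.Defs

set_option autoImplicit false

namespace Pool.Agent.Helper26.TOT

open Finset

theorem geom_le (x : ℝ) (hx0 : 0 ≤ x) (hx1 : x < 1) (K : ℕ) :
    ∑ j ∈ Icc 1 K, x ^ j ≤ x / (1 - x) := by
  have h1 : 0 < 1 - x := by linarith
  rw [le_div_iff₀ h1]
  have h : (∑ j ∈ Icc 1 K, x ^ j) * (1 - x) = x - x ^ (K + 1) := by
    induction K with
    | zero => simp
    | succ K ih =>
      rw [Finset.sum_Icc_succ_top (by omega), add_mul, ih]
      ring
  rw [h]
  have : 0 ≤ x ^ (K + 1) := by positivity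
  linarith

theorem radical_class (E : Finset ℕ) (x : ℕ → ℝ) (hx : ∀ l ∈ E, 0 ≤ x l ∧ x l < 1) (A : Finset ℕ)
    (hA : ∀ n ∈ A, n ≠ 0 ∧ n.primeFactors = E) :
    ∑ n ∈ A, ∏ l ∈ n.primeFactors, x l ^ (n.factorization l) ≤ ∏ l ∈ E, x l / (1 - x l) := by
  classical
  set K := A.sup id with hK
  have hle : ∀ n ∈ A, ∀ l, n.factorization l ≤ K := by
    intro n hn l
    have h1 : n ≤ K := Finset.le_sup (f := id) hn
    exact (Nat.factorization_lt l (hA n hn).1).le.trans h1
  set φ : ℕ → (l : ℕ) → l ∈ E → ℕ := fun n l _ => n.factorization l with hφ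
  have hinj : Set.InjOn φ (A : Set ℕ) := by
    intro n hn m hm h
    have hn' := hA n hn
    have hm' := hA m hm
    apply Nat.eq_of_factorization_eq hn'.1 hm'.1
    intro l
    by_cases hl : l ∈ E
    · exact congrFun (congrFun h l) hl
    · have e1 : n.factorization l = 0 := by
        rw [← Finsupp.notMem_support_iff, Nat.support_factorization, hn'.2]
        exact hl
      have e2 : m.factorization l = 0 := by
        rw [← Finsupp.notMem_support_iff, Nat.support_factorization, hm'.2]
        exact hl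
      rw [e1, e2]
  calc ∑ n ∈ A, ∏ l ∈ n.primeFactors, x l ^ (n.factorization l)
      = ∑ n ∈ A, ∏ l ∈ E.attach, x l.1 ^ (φ n l.1 l.2) := by
        apply Finset.sum_congr rfl
        intro n hn
        rw [(hA n hn).2, ← Finset.prod_attach]
    _ = ∑ p ∈ A.image φ, ∏ l ∈ E.attach, x l.1 ^ (p l.1 l.2) := by
        rw [Finset.sum_image hinj]
    _ ≤ ∑ p ∈ E.pi (fun _ => Icc 1 K), ∏ l ∈ E.attach, x l.1 ^ (p l.1 l.2) := by
        apply Finset.sum_le_sum_of_subset_of_nonneg
        · intro p hp
          obtain ⟨n, hn, rfl⟩ := mem_image.1 hp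
          rw [Finset.mem_pi]
          intro l hl
          rw [mem_Icc]
          refine ⟨?_, hle n hn l⟩
          simp only [hφ]
          have h1 : l ∈ n.primeFactors := by rw [(hA n hn).2]; exact hl
          exact (Nat.prime_of_mem_primeFactors h1).factorization_pos_of_dvd (hA n hn).1
            (Nat.dvd_of_mem_primeFactors h1)
        · intro p _ _
          exact Finset.prod_nonneg fun l _ => pow_nonneg (hx l.1 l.2).1 _
    _ = ∏ l ∈ E, ∑ j ∈ Icc 1 K, x l ^ j := by
        rw [Finset.prod_sum]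
    _ ≤ _ := by
        apply Finset.prod_le_prod
        · intro l hl
          exact Finset.sum_nonneg fun j _ => pow_nonneg (hx l hl).1 _
        · intro l hl
          exact geom_le _ (hx l hl).1 (hx l hl).2 K

theorem jge : Pool.Agent.Helper44.TOT.JGe := by
  classical
  intro P c z hP hc
  set f : ℕ → ℝ := fun n => ∏ l ∈ n.primeFactors, (c l / l) ^ (n.factorization l) with hf
  set N := (Finset.Icc 1 z).filter (fun n => n.primeFactors ⊆ P) with hN
  set T := (Finset.Icc 1 z).filter (fun d => Squarefree d ∧ d.primeFactors ⊆ P) with hT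
  set rad : ℕ → ℕ := fun n => ∏ p ∈ n.primeFactors, p with hrad
  have hradp : ∀ n, (rad n).primeFactors = n.primeFactors := fun n =>
    Nat.primeFactors_prod fun p hp => Nat.prime_of_mem_primeFactors hp
  have hmap : ∀ n ∈ N, rad n ∈ T := by
    intro n hn
    rw [hN, mem_filter, mem_Icc] at hn
    rw [hT, mem_filter, mem_Icc]
    refine ⟨⟨?_, ?_⟩, ?_, ?_⟩
    · exact Finset.prod_pos fun p hp => (Nat.prime_of_mem_primeFactors hp).pos
    · exact (Nat.le_of_dvd (by omega) (Nat.prod_primeFactors_dvd n)).trans hn.1.2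
    · have := UniqueFactorizationMonoid.squarefree_radical (a := n)
      rwa [Nat.radical_eq_prod_primeFactors] at this
    · rw [hradp]; exact hn.2
  rw [← Finset.sum_fiberwise_of_maps_to hmap]
  apply Finset.sum_le_sum
  intro d hd
  rw [hT, mem_filter, mem_Icc] at hd
  have hdP : ∀ l ∈ d.primeFactors, l ∈ P := fun l hl => hd.2.2 hl
  have hlpos : ∀ l ∈ d.primeFactors, (0 : ℝ) < l := fun l hl => by
    exact_mod_cast (hP l (hdP l hl)).pos
  have h1 := radical_class d.primeFactors (fun l => c l / l) (by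
    intro l hl
    have h := hc l (hdP l hl)
    have hl0 := hlpos l hl
    refine ⟨div_nonneg h.1 hl0.le, ?_⟩
    rw [div_lt_one hl0]
    exact h.2) (N.filter (fun n => rad n = d)) (by
    intro n hn
    rw [mem_filter, hN, mem_filter, mem_Icc] at hn
    refine ⟨by omega, ?_⟩
    rw [← hradp n, hn.2])
  refine h1.trans (le_of_eq ?_)
  apply Finset.prod_congr rfl
  intro l hl
  have hl0 := hlpos l hl
  have h := hc l (hdP l hl)
  have h2 : (0 : ℝ) < l - c l := by linarith [h.2]
  rw [show (1 : ℝ) - c l / l = (l - c l) / l by field_simp]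
  field_simp

end Pool.Agent.Helper26.TOT
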