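import Mathlib
import Pool.Agent.Helper44.TOT.Defs

set_option autoImplicit false

namespace Pool.Agent.Helper26.TOT

open Finset

/-- bad residues -/
def bad (Fs : Finset (ℕ × ℕ)) (l : ℕ) : Finset ℕ :=
  (range l).filter (fun r => ∃ f ∈ Fs, l ∣ f.1 * r + f.2)

theorem bad_card (Fs : Finset (ℕ × ℕ)) (l : ℕ) (hl : l.Prime)
    (h1 : ∀ f ∈ Fs, ¬ l ∣ f.1)
    (h2 : ∀ f ∈ Fs, ∀ g ∈ Fs, f ≠ g → ¬ (f.1 * g.2 ≡ g.1 * f.2 [MOD l])) :
    (bad Fs l).card = Fs.card := by
  classical
  have : Fact l.Prime := ⟨hl⟩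
  have : NeZero l := ⟨hl.ne_zero⟩
  set root : ℕ × ℕ → ℕ := fun f => (-(f.2 : ZMod l) / (f.1 : ZMod l)).val with hroot
  have hunit : ∀ f ∈ Fs, (f.1 : ZMod l) ≠ 0 := by
    intro f hf h0
    exact h1 f hf ((ZMod.natCast_eq_zero_iff _ _).1 h0)
  have hdvd : ∀ f ∈ Fs, ∀ r : ℕ, l ∣ f.1 * r + f.2 ↔ (r : ZMod l) = -(f.2 : ZMod l) / f.1 := by
    intro f hf r
    rw [← ZMod.natCast_eq_zero_iff]
    push_cast
    rw [eq_div_iff (hunit f hf)]
    constructor
    · intro h
      linear_combination h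
    · intro h
      linear_combination h
  have himg : bad Fs l = Fs.image root := by
    ext r
    unfold bad
    rw [mem_filter, mem_range, mem_image]
    constructor
    · rintro ⟨hr, f, hf, hd⟩
      refine ⟨f, hf, ?_⟩
      rw [hroot]
      simp only
      rw [← (hdvd f hf r).1 hd, ZMod.val_natCast, Nat.mod_eq_of_lt hr]
    · rintro ⟨f, hf, rfl⟩
      refine ⟨ZMod.val_lt _, f, hf, ?_⟩
      rw [hdvd f hf, hroot]
      simp only
      rw [ZMod.natCast_val, ZMod.cast_id]
  rw [himg]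
  apply Finset.card_image_of_injOn
  intro f hf g hg hfg
  by_contra hne
  apply h2 f hf g hg hne
  have e : -(f.2 : ZMod l) / f.1 = -(g.2 : ZMod l) / g.1 := ZMod.val_injective l hfg
  rw [div_eq_div_iff (hunit f hf) (hunit g hg)] at e
  rw [← ZMod.natCast_eq_natCast_iff]
  push_cast
  linear_combination e

theorem sieveForms (h1 : Pool.Agent.Helper44.TOT.SieveIneq) (h2 : Pool.Agent.Helper44.TOT.JGe)
    (h3 : Pool.Agent.Helper44.TOT.HPow) (h4 : Pool.Agent.Helper44.TOT.HLow) :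
    Pool.Agent.Helper44.TOT.SieveForms := by
  classical
  intro Fs Q X z hne hQ hz hk hf1 hdet S hS
  set k := Fs.card with hkdef
  have hkpos : 1 ≤ k := Finset.card_pos.2 hne
  set P := (Icc 1 z).filter (fun l => l.Prime ∧ ¬ l ∣ Q) with hP
  have hPmem : ∀ l ∈ P, l.Prime ∧ l ≤ z ∧ ¬ l ∣ Q := by
    intro l hl
    rw [hP, mem_filter, mem_Icc] at hl
    exact ⟨hl.2.1, hl.1.2, hl.2.2⟩
  have hcard : ∀ l ∈ P, (bad Fs l).card = k := by
    intro l hl
    obtain ⟨hlp, hlz, hlQ⟩ := hPmem l hl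
    apply bad_card Fs l hlp
    · intro f hf hd
      exact hlQ (hf1 f hf l hlp hd)
    · intro f hf g hg hfg hd
      exact hlQ (hdet f hf g hg hfg l hlp hd)
  have hkl : ∀ l ∈ P, k < l := by
    intro l hl
    obtain ⟨hlp, hlz, hlQ⟩ := hPmem l hl
    by_contra hcon
    exact hlQ (hk l hlp (by omega))
  -- the sieve inequality
  have a1 := h1 P (bad Fs) z X (fun l hl => (hPmem l hl).1) (fun l _ => filter_subset _ _)
    (fun l hl => by rw [hcard l hl]; exact hkpos) (fun l hl => by rw [hcard l hl]; exact hkl l hl)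
  have hSsub : S ⊆ (Finset.range X).filter (fun n => ∀ l ∈ P, n % l ∉ bad Fs l) := by
    intro n hn
    obtain ⟨hnX, hn2⟩ := hS n hn
    rw [mem_filter, mem_range]
    refine ⟨hnX, ?_⟩
    intro l hl hbad
    obtain ⟨hlp, hlz, hlQ⟩ := hPmem l hl
    unfold bad at hbad
    rw [mem_filter] at hbad
    obtain ⟨_, f, hf, hd⟩ := hbad
    apply hn2 f hf l hlp hlz
    have : f.1 * n + f.2 ≡ f.1 * (n % l) + f.2 [MOD l] :=
      Nat.ModEq.add_right _ (Nat.ModEq.mul_left _ (Nat.mod_modEq n l).symm)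
    exact (Nat.ModEq.dvd_iff this dvd_rfl).2 hd
  set J := ∑ d ∈ (Finset.Icc 1 z).filter (fun d => Squarefree d ∧ d.primeFactors ⊆ P),
        ∏ l ∈ d.primeFactors, (((bad Fs l).card : ℝ)) / ((l : ℝ) - ((bad Fs l).card : ℝ)) with hJ
  have hSX : (S.card : ℝ) * J ≤ (X : ℝ) + (z : ℝ) ^ 3 := by
    refine le_trans ?_ a1
    apply mul_le_mul_of_nonneg_right
    · exact_mod_cast Finset.card_le_card hSsub
    · apply Finset.sum_nonneg
      intro d hd
      apply Finset.prod_nonneg
      intro l hl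
      have hlP := (mem_filter.1 hd).2.2 hl
      rw [hcard l hlP]
      have : (k : ℝ) < l := by exact_mod_cast hkl l hlP
      apply div_nonneg (by positivity)
      linarith
  -- lower bound for J
  have hJ' : J = ∑ d ∈ (Finset.Icc 1 z).filter (fun d => Squarefree d ∧ d.primeFactors ⊆ P),
        ∏ l ∈ d.primeFactors, (k : ℝ) / ((l : ℝ) - (k : ℝ)) := by
    rw [hJ]
    apply Finset.sum_congr rfl
    intro d hd
    apply Finset.prod_congr rfl
    intro l hl
    rw [hcard l ((mem_filter.1 hd).2.2 hl)]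
  have a2 := h2 P (fun _ => (k : ℝ)) z (fun l hl => (hPmem l hl).1)
    (fun l hl => ⟨by positivity, by exact_mod_cast hkl l hl⟩)
  rw [← hJ'] at a2
  -- choose y with y ^ k ≤ z < (y + 1) ^ k
  obtain ⟨y, hy1, hy2⟩ : ∃ y : ℕ, y ^ k ≤ z ∧ z < (y + 1) ^ k := by
    have hex : ∃ m : ℕ, z < (m + 1) ^ k := ⟨z, by
      calc z < z + 1 := Nat.lt_succ_self z
        _ = (z + 1) ^ 1 := (pow_one _).symm
        _ ≤ (z + 1) ^ k := Nat.pow_le_pow_right (by omega) hkpos⟩
    refine ⟨Nat.find hex, ?_, Nat.find_spec hex⟩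
    rcases Nat.eq_zero_or_pos (Nat.find hex) with h0 | h0
    · rw [h0, zero_pow (by omega)]; omega
    · have := Nat.find_min hex (m := Nat.find hex - 1) (by omega)
      rw [not_lt, Nat.sub_add_cancel h0] at this
      exact this
  have a3 := h3 k Q y z hkpos hy1
  have a4 := h4 Q y hQ
  have hzr : (2 : ℝ) ≤ z := by exact_mod_cast hz
  have hlogz : 0 < Real.log z := Real.log_pos (by linarith)
  have hQr : (0 : ℝ) < Q := by exact_mod_cast hQ
  have hφ : (0 : ℝ) < Q.totient := by exact_mod_cast Nat.totient_pos.2 hQ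
  have hkr : (0 : ℝ) < k := by exact_mod_cast hkpos
  have hlogy : Real.log z / k ≤ Real.log (y + 1) := by
    rw [div_le_iff₀ hkr]
    have : Real.log z ≤ Real.log (((y : ℝ) + 1) ^ k) := by
      apply Real.log_le_log (by linarith)
      exact_mod_cast hy2.le
    rw [Real.log_pow] at this
    linarith
  set B : ℝ := (k : ℝ) * Q / ((Q.totient : ℝ) * Real.log z) with hB
  have hBpos : 0 < B := by positivity
  have hBinv : 1 / B ≤ ∑ n ∈ (Finset.Icc 1 y).filter (fun n => Nat.Coprime n Q), (1 : ℝ) / n := by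
    refine le_trans ?_ a4
    have : 1 / B = ((Q.totient : ℝ) / Q) * (Real.log z / k) := by
      rw [hB]; field_simp
    rw [this]
    exact mul_le_mul_of_nonneg_left hlogy (by positivity)
  have hJlow : (1 / B) ^ k ≤ J := by
    refine le_trans (pow_le_pow_left₀ (by positivity) hBinv k) (a3.trans (le_trans ?_ a2))
    apply Finset.sum_le_sum_of_subset_of_nonneg
    · intro n hn
      rw [mem_filter, mem_Icc] at hn ⊢
      refine ⟨hn.1, ?_⟩
      intro l hl
      rw [hP, mem_filter, mem_Icc]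
      have hlp := Nat.prime_of_mem_primeFactors hl
      have hld := Nat.dvd_of_mem_primeFactors hl
      refine ⟨⟨hlp.one_le, (Nat.le_of_dvd (by omega) hld).trans hn.1.2⟩, hlp, ?_⟩
      intro hlQ
      exact hlp.one_lt.ne' (Nat.eq_one_of_dvd_coprimes hn.2 hld hlQ)
    · intro n _ _
      apply Finset.prod_nonneg
      intro l _
      positivity
  have hJpos : 0 < J := lt_of_lt_of_le (by positivity) hJlow
  clear_value J B
  calc (S.card : ℝ) = (S.card : ℝ) * J * (1 / J) := by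
        rw [mul_assoc, mul_one_div_cancel hJpos.ne', mul_one]
    _ ≤ ((X : ℝ) + (z : ℝ) ^ 3) * (1 / J) :=
        mul_le_mul_of_nonneg_right hSX (by positivity)
    _ ≤ ((X : ℝ) + (z : ℝ) ^ 3) * B ^ k := by
        apply mul_le_mul_of_nonneg_left _ (by positivity)
        rw [div_le_iff₀ hJpos]
        calc (1 : ℝ) = B ^ k * (1 / B) ^ k := by
              rw [← mul_pow, mul_one_div_cancel hBpos.ne', one_pow]
          _ ≤ B ^ k * J := mul_le_mul_of_nonneg_left hJlow (by positivity)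

end Pool.Agent.Helper26.TOT
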