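import Mathlib
import Pool.Agent.Helper1.D6.Sieve
import Pool.Agent.Helper44.TOT.Defs

set_option autoImplicit false

namespace Pool.Agent.Helper26.TOT

open Finset Pool.Agent.Helper1.D6

/-- partial sums of a periodic function with zero mean -/
theorem abs_sum_per_le (M : ℕ) (hM : 0 < M) (F : ℕ → ℝ) (hF : ∀ x, F (x + M) = F x)
    (h0 : ∑ x ∈ range M, F x = 0) (N : ℕ) :
    |∑ t ∈ range N, F t| ≤ ∑ x ∈ range M, |F x| := by
  have hdecomp : ∀ q s, ∑ t ∈ range (q * M + s), F t = ∑ t ∈ range s, F t := by
    intro q s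
    rw [Finset.sum_range_add]
    have h1 : ∑ x ∈ range (q * M), F x = 0 := by
      rw [sum_range_mul']
      apply Finset.sum_eq_zero
      intro j _
      rw [← h0]
      apply Finset.sum_congr rfl
      intro c _
      exact periodic_mul M F hF j c
    rw [h1, zero_add]
    apply Finset.sum_congr rfl
    intro t _
    rw [add_comm]
    exact periodic_mul M F hF q t
  have hN : N = (N / M) * M + N % M := by
    rw [mul_comm]; exact (Nat.div_add_mod N M).symm
  rw [hN, hdecomp]
  refine (Finset.abs_sum_le_sum_abs _ _).trans ?_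
  apply Finset.sum_le_sum_of_subset_of_nonneg
  · intro t ht
    rw [mem_range] at ht ⊢
    exact ht.trans (Nat.mod_lt N hM)
  · intro t _ _
    exact abs_nonneg _

/-- the sieve function -/
noncomputable def psi (Om : ℕ → Finset ℕ) (l n : ℕ) : ℝ :=
  if n % l ∈ Om l then -(((l : ℝ) - (Om l).card) / (Om l).card) else 1

noncomputable def gg (Om : ℕ → Finset ℕ) (l : ℕ) : ℝ := ((Om l).card : ℝ) / ((l : ℝ) - (Om l).card)

theorem psi_per (Om : ℕ → Finset ℕ) (l n : ℕ) : psi Om l (n + l) = psi Om l n := by
  unfold psi; simp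

theorem psi_sum (Om : ℕ → Finset ℕ) (l : ℕ) (hOm : Om l ⊆ range l) (g : ℝ → ℝ) :
    ∑ x ∈ range l, g (psi Om l x) = (Om l).card * g (-(((l : ℝ) - (Om l).card) / (Om l).card)) +
      ((l : ℝ) - (Om l).card) * g 1 := by
  rw [← Finset.sum_sdiff hOm, add_comm]
  congr 1
  · rw [Finset.sum_congr rfl (g := fun _ => g (-(((l : ℝ) - (Om l).card) / (Om l).card)))]
    · rw [Finset.sum_const, nsmul_eq_mul]
    · intro x hx
      unfold psi
      rw [if_pos]
      rw [Nat.mod_eq_of_lt (mem_range.1 (hOm hx))]
      exact hx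
  · rw [Finset.sum_congr rfl (g := fun _ => g 1)]
    · rw [Finset.sum_const, nsmul_eq_mul, Finset.card_sdiff_of_subset hOm, Finset.card_range,
        Nat.cast_sub]
      have := Finset.card_le_card hOm
      simpa using this
    · intro x hx
      rw [mem_sdiff] at hx
      unfold psi
      rw [if_neg]
      rw [Nat.mod_eq_of_lt (mem_range.1 hx.1)]
      exact hx.2

/-- the family of moduli -/
noncomputable def fam (P : Finset ℕ) (z : ℕ) : Finset ℕ :=
  (Icc 1 z).filter (fun d => Squarefree d ∧ d.primeFactors ⊆ P)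

/-- **The Selberg type sieve inequality.** -/
theorem sieve_ineq (P : Finset ℕ) (Om : ℕ → Finset ℕ)
    (hOm : ∀ l ∈ P, Om l ⊆ range l) (h1 : ∀ l ∈ P, 1 ≤ (Om l).card)
    (h2 : ∀ l ∈ P, (Om l).card < l) (X z : ℕ) (S : Finset ℕ) (hS : S ⊆ range X)
    (hS1 : ∀ n ∈ S, ∀ l ∈ P, n % l ∉ Om l) :
    (S.card : ℝ) * (∑ d ∈ (Icc 1 z).filter (fun d => Squarefree d ∧ d.primeFactors ⊆ P),
      ∏ l ∈ d.primeFactors, (((Om l).card : ℝ) / ((l : ℝ) - (Om l).card))) ≤
      (X : ℝ) + (z : ℝ) ^ 3 := by
  classical
  change (S.card : ℝ) * (∑ d ∈ fam P z, ∏ l ∈ d.primeFactors, gg Om l) ≤ (X : ℝ) + (z : ℝ) ^ 3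
  rcases Nat.eq_zero_or_pos z with rfl | hz
  · have : fam P 0 = ∅ := by unfold fam; simp
    rw [this]
    simp
  set T := fam P z with hT
  set J := ∑ d ∈ T, ∏ l ∈ d.primeFactors, gg Om l with hJ
  set G : ℕ → ℝ := fun d => ∏ l ∈ d.primeFactors, gg Om l with hG
  set F : ℕ → ℕ → ℝ := fun d n => ∏ l ∈ d.primeFactors, psi Om l n with hF
  have hTmem : ∀ d ∈ T, 1 ≤ d ∧ d ≤ z ∧ Squarefree d ∧ ∀ l ∈ d.primeFactors, l ∈ P := by
    intro d hd
    rw [hT, fam, mem_filter, mem_Icc] at hd
    exact ⟨hd.1.1, hd.1.2, hd.2.1, fun l hl => hd.2.2 hl⟩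
  have hgpos : ∀ l ∈ P, 0 < gg Om l := by
    intro l hl
    unfold gg
    have a1 : (1 : ℝ) ≤ (Om l).card := by exact_mod_cast h1 l hl
    have a2 : ((Om l).card : ℝ) < l := by exact_mod_cast h2 l hl
    apply div_pos <;> linarith
  have hGpos : ∀ d ∈ T, 0 < G d := fun d hd =>
    Finset.prod_pos fun l hl => hgpos l ((hTmem d hd).2.2.2 l hl)
  have hprime : ∀ d : ℕ, ∀ l ∈ d.primeFactors, l.Prime := fun d l hl =>
    Nat.prime_of_mem_primeFactors hl
  have hprod : ∀ d ∈ T, ∏ r ∈ d.primeFactors, r = d := fun d hd =>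
    Nat.prod_primeFactors_of_squarefree (hTmem d hd).2.2.1
  -- mean values
  have hmean : ∀ l ∈ P, ∑ x ∈ range l, psi Om l x = 0 := by
    intro l hl
    have := psi_sum Om l (hOm l hl) (fun t => t)
    rw [this]
    have a1 : (1 : ℝ) ≤ (Om l).card := by exact_mod_cast h1 l hl
    field_simp
    ring
  have hsq : ∀ l ∈ P, ∑ x ∈ range l, (psi Om l x) ^ 2 = l / gg Om l := by
    intro l hl
    have := psi_sum Om l (hOm l hl) (fun t => t ^ 2)
    rw [this]
    have a1 : (1 : ℝ) ≤ (Om l).card := by exact_mod_cast h1 l hl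
    have a2 : ((Om l).card : ℝ) < l := by exact_mod_cast h2 l hl
    have a3 : (0 : ℝ) < l - (Om l).card := by linarith
    unfold gg
    field_simp
    ring
  have hFper : ∀ d ∈ T, ∀ M : ℕ, d ∣ M → ∀ x, F d (x + M) = F d x := by
    intro d hd M hM x
    exact prod_periodic (psi Om) d.primeFactors (fun r _ x => psi_per Om r x) M
      (fun r hr => (Nat.dvd_of_mem_primeFactors hr).trans hM) x
  have hFsq : ∀ d ∈ T, ∑ x ∈ range d, (F d x) ^ 2 = d / G d := by
    intro d hd
    have a := sum_prod_period (fun r x => (psi Om r x) ^ 2) d.primeFactors (hprime d)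
      (fun r _ x => by simp only [psi_per])
    rw [hprod d hd] at a
    calc ∑ x ∈ range d, (F d x) ^ 2 = ∑ x ∈ range d, ∏ r ∈ d.primeFactors, (psi Om r x) ^ 2 := by
          apply Finset.sum_congr rfl
          intro x _
          rw [hF]
          simp only
          rw [Finset.prod_pow]
      _ = _ := a
      _ = ∏ r ∈ d.primeFactors, ((r : ℝ) / gg Om r) :=
          Finset.prod_congr rfl fun r hr => hsq r ((hTmem d hd).2.2.2 r hr)
      _ = _ := by
          rw [Finset.prod_div_distrib]
          congr 1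
          conv_rhs => rw [← hprod d hd]
          push_cast
          rfl
  -- sum of squares over a longer period
  have hFsqM : ∀ d ∈ T, ∀ q : ℕ, ∑ x ∈ range (q * d), (F d x) ^ 2 = ((q * d : ℕ) : ℝ) / G d := by
    intro d hd q
    rw [sum_range_mul']
    have : ∀ j ∈ range q, ∑ c ∈ range d, (F d (c + j * d)) ^ 2 = d / G d := by
      intro j _
      rw [← hFsq d hd]
      apply Finset.sum_congr rfl
      intro c _
      rw [hFper d hd (j * d) (Dvd.intro_left j rfl) c]
    rw [Finset.sum_congr rfl this]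
    simp
    ring
  -- lower bound
  have hlow : (S.card : ℝ) * J ^ 2 ≤ ∑ t ∈ range X, (∑ d ∈ T, G d * F d t) ^ 2 := by
    calc (S.card : ℝ) * J ^ 2 = ∑ t ∈ S, (∑ d ∈ T, G d * F d t) ^ 2 := by
          rw [Finset.sum_congr rfl (g := fun _ => J ^ 2), Finset.sum_const, nsmul_eq_mul]
          intro t ht
          congr 1
          rw [hJ]
          apply Finset.sum_congr rfl
          intro d hd
          have : F d t = 1 := by
            rw [hF]
            apply Finset.prod_eq_one
            intro r hr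
            unfold psi
            rw [if_neg (hS1 t ht r ((hTmem d hd).2.2.2 r hr))]
          rw [this, mul_one]
      _ ≤ _ := Finset.sum_le_sum_of_subset_of_nonneg hS fun t _ _ => sq_nonneg _
  -- expand
  have hexp : ∑ t ∈ range X, (∑ d ∈ T, G d * F d t) ^ 2 =
      ∑ d ∈ T, ∑ e ∈ T, ∑ t ∈ range X, (G d * F d t) * (G e * F e t) := by
    calc _ = ∑ t ∈ range X, ∑ d ∈ T, ∑ e ∈ T, (G d * F d t) * (G e * F e t) := by
          apply Finset.sum_congr rfl
          intro t _
          rw [sq, Finset.sum_mul_sum]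
      _ = _ := by
          rw [Finset.sum_comm]
          apply Finset.sum_congr rfl
          intro d _
          rw [Finset.sum_comm]
  have hz1 : (1 : ℝ) ≤ z := by exact_mod_cast hz
  -- diagonal
  have hdiag : ∀ d ∈ T, ∑ t ∈ range X, (G d * F d t) * (G d * F d t) ≤
      X * G d + (z : ℝ) ^ 2 * (Real.sqrt (G d) * Real.sqrt (G d)) := by
    intro d hd
    have hd0 : 0 < d := (hTmem d hd).1
    have hdr : (0 : ℝ) < d := by exact_mod_cast hd0
    have a1 := sum_periodic_le d hd0 (fun x => (F d x) ^ 2)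
      (fun x => by simp only [hFper d hd d dvd_rfl x]) (fun x => sq_nonneg _) 0 X
    simp only [zero_add] at a1
    rw [hFsq d hd] at a1
    have hGd := hGpos d hd
    rw [Real.mul_self_sqrt hGd.le]
    calc ∑ t ∈ range X, (G d * F d t) * (G d * F d t) = (G d) ^ 2 * ∑ t ∈ range X, (F d t) ^ 2 := by
          rw [Finset.mul_sum]
          apply Finset.sum_congr rfl
          intro t _
          ring
      _ ≤ (G d) ^ 2 * (((X : ℝ) / d + 1) * (d / G d)) :=
          mul_le_mul_of_nonneg_left a1 (sq_nonneg _)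
      _ = X * G d + d * G d := by field_simp
      _ ≤ X * G d + (z : ℝ) ^ 2 * G d := by
          have : (d : ℝ) ≤ z := by exact_mod_cast (hTmem d hd).2.1
          have : (d : ℝ) ≤ (z : ℝ) ^ 2 := by nlinarith
          nlinarith
  -- off-diagonal
  have hoff : ∀ d ∈ T, ∀ e ∈ T, d ≠ e →
      ∑ t ∈ range X, (G d * F d t) * (G e * F e t) ≤
        (z : ℝ) ^ 2 * (Real.sqrt (G d) * Real.sqrt (G e)) := by
    intro d hd e he hne
    have hd0 : 0 < d := (hTmem d hd).1
    have he0 : 0 < e := (hTmem e he).1
    set M := ∏ r ∈ d.primeFactors ∪ e.primeFactors, r with hMdef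
    have hMpos : 0 < M := Finset.prod_pos fun r hr => by
      rcases mem_union.1 hr with h | h
      · exact (hprime d r h).pos
      · exact (hprime e r h).pos
    have hdM : d ∣ M := by
      conv_lhs => rw [← hprod d hd]
      exact Finset.prod_dvd_prod_of_subset _ _ _ subset_union_left
    have heM : e ∣ M := by
      conv_lhs => rw [← hprod e he]
      exact Finset.prod_dvd_prod_of_subset _ _ _ subset_union_right
    have hMz : (M : ℝ) ≤ (z : ℝ) ^ 2 := by
      have b1 := prod_union_le d.primeFactors e.primeFactors (fun r hr => (hprime d r hr).pos)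
      rw [hprod d hd, hprod e he] at b1
      have b2 : M ≤ z ^ 2 := by
        rw [sq]
        exact b1.trans (Nat.mul_le_mul (hTmem d hd).2.1 (hTmem e he).2.1)
      exact_mod_cast b2
    have hzero : ∑ x ∈ range M, F d x * F e x = 0 := by
      have hex : (∃ q ∈ d.primeFactors, q ∉ e.primeFactors) ∨
          (∃ q ∈ e.primeFactors, q ∉ d.primeFactors) := by
        by_contra hcon
        push Not at hcon
        have := Finset.Subset.antisymm hcon.1 hcon.2
        apply hne
        rw [← hprod d hd, ← hprod e he, this]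
      rcases hex with ⟨q, hq, hq'⟩ | ⟨q, hq, hq'⟩
      · exact sum_offdiag (psi Om) d.primeFactors e.primeFactors (hprime d) (hprime e)
          (fun r _ x => psi_per Om r x) (fun r _ x => psi_per Om r x)
          (fun r hr => hmean r ((hTmem d hd).2.2.2 r hr)) q hq hq'
      · have := sum_offdiag (psi Om) e.primeFactors d.primeFactors (hprime e) (hprime d)
          (fun r _ x => psi_per Om r x) (fun r _ x => psi_per Om r x)
          (fun r hr => hmean r ((hTmem e he).2.2.2 r hr)) q hq hq'
        rw [hMdef, Finset.union_comm, ← this]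
        apply Finset.sum_congr rfl
        intro x _
        rw [hF]; ring
    have hb := abs_sum_per_le M hMpos (fun x => F d x * F e x)
      (by
        intro x
        rw [hFper d hd M hdM x, hFper e he M heM x]) hzero X
    have hcs : (∑ x ∈ range M, |F d x * F e x|) ≤
        Real.sqrt (M / G d) * Real.sqrt (M / G e) := by
      obtain ⟨q1, hq1⟩ := hdM
      obtain ⟨q2, hq2⟩ := heM
      have s1 : ∑ x ∈ range M, |F d x| ^ 2 = M / G d := by
        have := hFsqM d hd q1
        rw [show q1 * d = M by rw [hq1, mul_comm]] at this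
        rw [← this]
        exact Finset.sum_congr rfl fun x _ => sq_abs _
      have s2 : ∑ x ∈ range M, |F e x| ^ 2 = M / G e := by
        have := hFsqM e he q2
        rw [show q2 * e = M by rw [hq2, mul_comm]] at this
        rw [← this]
        exact Finset.sum_congr rfl fun x _ => sq_abs _
      rw [← s1, ← s2]
      simp_rw [abs_mul]
      exact Real.sum_mul_le_sqrt_mul_sqrt _ _ _
    have hGd := hGpos d hd
    have hGe := hGpos e he
    have hMr : (0 : ℝ) < M := by exact_mod_cast hMpos
    calc ∑ t ∈ range X, (G d * F d t) * (G e * F e t) = (G d * G e) * ∑ t ∈ range X, F d t * F e t := by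
          rw [Finset.mul_sum]
          apply Finset.sum_congr rfl
          intro t _
          ring
      _ ≤ (G d * G e) * (Real.sqrt (M / G d) * Real.sqrt (M / G e)) := by
          apply mul_le_mul_of_nonneg_left _ (by positivity)
          exact (le_abs_self _).trans (hb.trans hcs)
      _ = M * (Real.sqrt (G d) * Real.sqrt (G e)) := by
          rw [Real.sqrt_div hMr.le, Real.sqrt_div hMr.le]
          have e1 : Real.sqrt (G d) * Real.sqrt (G d) = G d := Real.mul_self_sqrt hGd.le
          have e2 : Real.sqrt (G e) * Real.sqrt (G e) = G e := Real.mul_self_sqrt hGe.le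
          have e3 : Real.sqrt M * Real.sqrt M = M := Real.mul_self_sqrt hMr.le
          have p1 : 0 < Real.sqrt (G d) := Real.sqrt_pos.2 hGd
          have p2 : 0 < Real.sqrt (G e) := Real.sqrt_pos.2 hGe
          have p3 : 0 < Real.sqrt (M : ℝ) := Real.sqrt_pos.2 hMr
          calc G d * G e * (Real.sqrt M / Real.sqrt (G d) * (Real.sqrt M / Real.sqrt (G e)))
              = (Real.sqrt (G d) * Real.sqrt (G d)) * (Real.sqrt (G e) * Real.sqrt (G e)) *
                (Real.sqrt M / Real.sqrt (G d) * (Real.sqrt M / Real.sqrt (G e))) := by rw [e1, e2]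
            _ = (Real.sqrt M * Real.sqrt M) * (Real.sqrt (G d) * Real.sqrt (G e)) := by
                field_simp
            _ = _ := by rw [e3]
      _ ≤ _ := mul_le_mul_of_nonneg_right hMz (by positivity)
  -- number of moduli
  have hcard : ((∑ d ∈ T, Real.sqrt (G d)) ^ 2) ≤ z * J := by
    have a1 : (∑ d ∈ T, Real.sqrt (G d)) ^ 2 ≤ (T.card : ℝ) * ∑ d ∈ T, (Real.sqrt (G d)) ^ 2 :=
      sq_sum_le_card_mul_sum_sq
    have a2 : ∑ d ∈ T, (Real.sqrt (G d)) ^ 2 = J := by
      rw [hJ]
      exact Finset.sum_congr rfl fun d hd => Real.sq_sqrt (hGpos d hd).le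
    have a3 : (T.card : ℝ) ≤ z := by
      have : T.card ≤ (Icc 1 z).card := by
        rw [hT, fam]
        exact card_filter_le _ _
      rw [Nat.card_Icc] at this
      exact_mod_cast (by omega : T.card ≤ z)
    rw [a2] at a1
    have hJ0 : 0 ≤ J := Finset.sum_nonneg fun d hd => (hGpos d hd).le
    exact a1.trans (mul_le_mul_of_nonneg_right a3 hJ0)
  have h1T : 1 ∈ T := by
    rw [hT, fam, mem_filter, mem_Icc]
    exact ⟨⟨le_rfl, hz⟩, squarefree_one, by simp⟩
  have hJpos : 0 < J := by
    refine lt_of_lt_of_le (hGpos 1 h1T) ?_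
    rw [hJ]
    exact Finset.single_le_sum (f := G) (fun d hd => (hGpos d hd).le) h1T
  have hfin : (S.card : ℝ) * J ^ 2 ≤ X * J + (z : ℝ) ^ 3 * J := by
    calc (S.card : ℝ) * J ^ 2 ≤ _ := hlow
      _ = _ := hexp
      _ ≤ ∑ d ∈ T, ∑ e ∈ T, ((if d = e then X * G d else 0) +
            (z : ℝ) ^ 2 * (Real.sqrt (G d) * Real.sqrt (G e))) := by
          apply Finset.sum_le_sum
          intro d hd
          apply Finset.sum_le_sum
          intro e he
          by_cases h : d = e
          · subst h
            rw [if_pos rfl]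
            exact hdiag d hd
          · rw [if_neg h, zero_add]
            exact hoff d hd e he h
      _ = X * J + (z : ℝ) ^ 2 * (∑ d ∈ T, Real.sqrt (G d)) ^ 2 := by
          simp only [Finset.sum_add_distrib]
          congr 1
          · rw [hJ, Finset.mul_sum]
            apply Finset.sum_congr rfl
            intro d hd
            rw [Finset.sum_ite_eq, if_pos hd]
          · rw [sq (∑ d ∈ T, Real.sqrt (G d)), Finset.sum_mul_sum, Finset.mul_sum]
            apply Finset.sum_congr rfl
            intro d _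
            rw [Finset.mul_sum]
      _ ≤ X * J + (z : ℝ) ^ 2 * (z * J) := by
          have : (0 : ℝ) ≤ (z : ℝ) ^ 2 := by positivity
          nlinarith
      _ = _ := by ring
  have : (S.card : ℝ) * J * J ≤ (X + (z : ℝ) ^ 3) * J := by
    calc (S.card : ℝ) * J * J = (S.card : ℝ) * J ^ 2 := by ring
      _ ≤ _ := hfin
      _ = _ := by ring
  exact le_of_mul_le_mul_right this hJpos

theorem sieveIneq : Pool.Agent.Helper44.TOT.SieveIneq := by
  intro P Om z X _ hOm h1 h2
  exact sieve_ineq P Om hOm h1 h2 X z _ (filter_subset _ _) (fun n hn => (mem_filter.1 hn).2)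

end Pool.Agent.Helper26.TOT
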