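import Mathlib
import Pool.Agent.Helper44.TOT.Defs

set_option autoImplicit false

namespace Pool.Agent.Helper26.TOT

open Finset Pool.Agent.Helper44.TOT

theorem tot_inv (n : ℕ) (hn : 1 ≤ n) :
    ((n.totient : ℝ) / n) = ∏ l ∈ n.primeFactors, (1 - 1 / (l : ℝ)) := by
  have h3 := Nat.totient_eq_mul_prod_factors n
  have h4 : (n.totient : ℝ) = n * ∏ p ∈ n.primeFactors, (1 - (p : ℝ)⁻¹) := by
    have := congrArg (fun q : ℚ => (q : ℝ)) h3
    push_cast at this
    exact this
  have hQ0 : (n : ℝ) ≠ 0 := by
    have : (1 : ℝ) ≤ n := by exact_mod_cast hn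
    linarith
  rw [h4]
  simp only [one_div]
  field_simp

theorem one_sub_inv_ge (l : ℕ) (hl : 2 ≤ l) : Real.exp (-(2 * (1 / (l : ℝ)))) ≤ 1 - 1 / (l : ℝ) := by
  have hl' : (2 : ℝ) ≤ l := by exact_mod_cast hl
  set t : ℝ := 1 / (l : ℝ) with ht
  have ht0 : 0 < t := by positivity
  have ht1 : t ≤ 1 / 2 := by
    rw [ht]
    exact one_div_le_one_div_of_le (by norm_num) hl'
  have h1 : 1 + 2 * t ≤ Real.exp (2 * t) := by
    have := Real.add_one_le_exp (2 * t)
    linarith
  rw [Real.exp_neg, inv_le_comm₀ (Real.exp_pos _) (by linarith)]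
  refine le_trans ?_ h1
  rw [inv_le_iff_one_le_mul₀ (by linarith)]
  nlinarith

/-- `Q/φ(Q)` for `Q = P_R * D` -/
theorem ratio_le (R D : ℕ) (hD : 1 ≤ D) :
    ((primorial R * D : ℕ) : ℝ) / ((primorial R * D).totient : ℝ) ≤
      (primorial R : ℝ) / ((primorial R).totient : ℝ) * Real.exp (2 * sig R D) := by
  classical
  have hP := primorial_pos R
  have hQ : 1 ≤ primorial R * D := Nat.mul_pos hP hD
  have e1 := tot_inv _ hQ
  have e2 := tot_inv _ hP
  have hfac : (primorial R * D).primeFactors =
      (primorial R).primeFactors ∪ D.primeFactors.filter (fun l => R < l) := by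
    rw [Nat.primeFactors_mul hP.ne' (by omega)]
    ext l
    simp only [mem_union, mem_filter]
    constructor
    · rintro (h | h)
      · left; exact h
      · by_cases hR : R < l
        · right; exact ⟨h, hR⟩
        · left
          rw [primeFactors_primorial, Nat.mem_primesLE]
          exact ⟨by omega, Nat.prime_of_mem_primeFactors h⟩
    · rintro (h | h)
      · left; exact h
      · right; exact h.1
  have hdisj : Disjoint (primorial R).primeFactors (D.primeFactors.filter (fun l => R < l)) := by
    rw [Finset.disjoint_left]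
    intro l hl hl'
    rw [primeFactors_primorial, Nat.mem_primesLE] at hl
    rw [mem_filter] at hl'
    omega
  rw [hfac, Finset.prod_union hdisj, ← e2] at e1
  have hge : Real.exp (-(2 * sig R D)) ≤
      ∏ l ∈ D.primeFactors.filter (fun l => R < l), (1 - 1 / (l : ℝ)) := by
    unfold sig
    rw [Finset.mul_sum, ← Finset.sum_neg_distrib, Real.exp_sum]
    apply Finset.prod_le_prod
    · intro l _; positivity
    · intro l hl
      exact one_sub_inv_ge l (Nat.prime_of_mem_primeFactors (mem_filter.1 hl).1).two_le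
  have hφP : (0 : ℝ) < (primorial R).totient := by exact_mod_cast Nat.totient_pos.2 hP
  have hPr : (0 : ℝ) < primorial R := by exact_mod_cast hP
  have hφQ : (0 : ℝ) < ((primorial R * D).totient : ℝ) := by exact_mod_cast Nat.totient_pos.2 hQ
  have hQr : (0 : ℝ) < ((primorial R * D : ℕ) : ℝ) := by exact_mod_cast hQ
  have h1 : ((primorial R).totient : ℝ) / (primorial R) * Real.exp (-(2 * sig R D)) ≤
      ((primorial R * D).totient : ℝ) / ((primorial R * D : ℕ) : ℝ) := by
    rw [e1]
    exact mul_le_mul_of_nonneg_left hge (by positivity)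
  rw [Real.exp_neg] at h1
  have hexp := Real.exp_pos (2 * sig R D)
  calc ((primorial R * D : ℕ) : ℝ) / ((primorial R * D).totient : ℝ)
      = (((primorial R * D).totient : ℝ) / ((primorial R * D : ℕ) : ℝ))⁻¹ := by rw [inv_div]
    _ ≤ (((primorial R).totient : ℝ) / (primorial R) * (Real.exp (2 * sig R D))⁻¹)⁻¹ := by
        apply inv_anti₀ _ h1
        positivity
    _ = _ := by
        rw [mul_inv, inv_inv, inv_div]

theorem sig_mul_le (R a b : ℕ) (ha : 1 ≤ a) (hb : 1 ≤ b) : sig R (a * b) ≤ sig R a + sig R b := by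
  classical
  unfold sig
  rw [Nat.primeFactors_mul (by omega) (by omega), Finset.filter_union]
  have h := Finset.sum_union_inter (s₁ := a.primeFactors.filter (fun l => R < l))
    (s₂ := b.primeFactors.filter (fun l => R < l)) (f := fun l : ℕ => (1 : ℝ) / l)
  have h2 : 0 ≤ ∑ l ∈ a.primeFactors.filter (fun l => R < l) ∩ b.primeFactors.filter (fun l => R < l),
      (1 : ℝ) / l := Finset.sum_nonneg fun _ _ => by positivity
  linarith

theorem Del_dvd (K : ℕ) (μ : Fin K → ℕ) (i j : Fin K) (hij : i ≠ j) :
    (max (μ i) (μ j) - min (μ i) (μ j)) ∣ Del K μ := by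
  unfold Del
  apply Dvd.dvd.mul_left
  rcases lt_or_gt_of_ne hij with h | h
  · exact Finset.dvd_prod_of_mem
      (fun ij : Fin K × Fin K => (max (μ ij.1) (μ ij.2) - min (μ ij.1) (μ ij.2)))
      (a := (i, j)) (by simp [h])
  · rw [max_comm, min_comm]
    exact Finset.dvd_prod_of_mem
      (fun ij : Fin K × Fin K => (max (μ ij.1) (μ ij.2) - min (μ ij.1) (μ ij.2)))
      (a := (j, i)) (by simp [h])

theorem Del_pos (K : ℕ) (μ : Fin K → ℕ) (hinj : Function.Injective μ) (h1 : ∀ i, 1 ≤ μ i) :
    1 ≤ Del K μ := by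
  unfold Del
  apply Nat.mul_pos
  · exact Finset.prod_pos fun i _ => h1 i
  · apply Finset.prod_pos
    intro ij hij
    have hlt := (mem_filter.1 hij).2
    have hne : μ ij.1 ≠ μ ij.2 := fun h => hlt.ne (hinj h)
    omega

theorem modEq_sub {l u v c : ℕ} (hl : l.Prime) (h : c * u ≡ c * v [MOD l]) :
    l ∣ c ∨ l ∣ (max u v - min u v) := by
  by_cases hc : l ∣ c
  · left; exact hc
  · right
    have hco : Nat.Coprime l c := (Nat.Prime.coprime_iff_not_dvd hl).2 hc
    have h' : u ≡ v [MOD l] := Nat.ModEq.cancel_left_of_coprime hco h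
    rcases le_total u v with huv | huv
    · rw [max_eq_right huv, min_eq_left huv]
      exact (Nat.modEq_iff_dvd' huv).1 h'
    · rw [max_eq_left huv, min_eq_right huv]
      exact (Nat.modEq_iff_dvd' huv).1 h'.symm

theorem cL0point (h : SieveForms) : CL0point := by
  classical
  intro K R a b z X μ S hK hKR ha hz _ hzX _ hinj hμ1 hS
  set P := primorial R with hP
  have hPpos : 0 < P := primorial_pos R
  have hDpos := Del_pos K μ hinj hμ1
  set f0 : ℕ × ℕ := (P, b) with hf0
  set fi : Fin K → ℕ × ℕ := fun i => (a * μ i * P, a * μ i * b + 1) with hfi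
  have hfiinj : Function.Injective fi := by
    intro i j hij
    simp only [hfi, Prod.mk.injEq] at hij
    apply hinj
    have h1 := Nat.eq_of_mul_eq_mul_right hPpos hij.1
    exact Nat.eq_of_mul_eq_mul_left (by omega) h1
  have hf0i : ∀ i, fi i ≠ f0 := by
    intro i hi
    simp only [hfi, hf0, Prod.mk.injEq] at hi
    have h1 : a * μ i = 1 := by
      have := hi.1
      apply Nat.eq_of_mul_eq_mul_right hPpos
      rw [this, one_mul]
    rw [h1, one_mul] at hi
    omega
  set Fs : Finset (ℕ × ℕ) := insert f0 (univ.image fi) with hFs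
  have hcard : Fs.card = K + 1 := by
    rw [hFs, Finset.card_insert_of_notMem, Finset.card_image_of_injective _ hfiinj,
      Finset.card_univ, Fintype.card_fin]
    intro hmem
    obtain ⟨i, _, hi⟩ := mem_image.1 hmem
    exact hf0i i hi
  have hFmem : ∀ f ∈ Fs, f = f0 ∨ ∃ i, f = fi i := by
    intro f hf
    rw [hFs, mem_insert, mem_image] at hf
    rcases hf with h1 | ⟨i, _, h1⟩
    · left; exact h1
    · right; exact ⟨i, h1.symm⟩
  set Q := P * (a * Del K μ) with hQ
  have hQpos : 1 ≤ Q := Nat.mul_pos hPpos (Nat.mul_pos ha hDpos)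
  have hμD : ∀ i, μ i ∣ Del K μ := fun i =>
    Dvd.dvd.mul_right (Finset.dvd_prod_of_mem μ (mem_univ i)) _
  have key := h Fs Q X z ⟨f0, mem_insert_self _ _⟩ hQpos hz (by
      intro l hl hle
      rw [hcard] at hle
      exact Dvd.dvd.mul_right ((Nat.Prime.dvd_primorial_iff hl).2 (by omega)) _) (by
      intro f hf l hl hd
      rcases hFmem f hf with rfl | ⟨i, rfl⟩
      · exact Dvd.dvd.mul_right hd _
      · simp only [hfi] at hd
        rcases (Nat.Prime.dvd_mul hl).1 hd with h1 | h1
        · rcases (Nat.Prime.dvd_mul hl).1 h1 with h2 | h2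
          · exact Dvd.dvd.mul_left (Dvd.dvd.mul_right h2 _) _
          · exact Dvd.dvd.mul_left (Dvd.dvd.mul_left (h2.trans (hμD i)) _) _
        · exact Dvd.dvd.mul_right h1 _) (by
      intro f hf g hg hne l hl hmod
      rcases hFmem f hf with rfl | ⟨i, rfl⟩
      · rcases hFmem g hg with rfl | ⟨j, rfl⟩
        · exact absurd rfl hne
        · simp only [hfi, hf0] at hmod
          have h1 : P ≡ 0 [MOD l] := by
            have h2 : P * (a * μ j * b + 1) = a * μ j * P * b + P := by ring
            rw [h2] at hmod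
            exact Nat.ModEq.add_left_cancel' (a * μ j * P * b) (by simpa using hmod)
          exact Dvd.dvd.mul_right ((Nat.modEq_zero_iff_dvd).1 h1) _
      · rcases hFmem g hg with rfl | ⟨j, rfl⟩
        · simp only [hfi, hf0] at hmod
          have h1 : P ≡ 0 [MOD l] := by
            have h2 : P * (a * μ i * b + 1) = a * μ i * P * b + P := by ring
            rw [h2] at hmod
            exact Nat.ModEq.add_left_cancel' (a * μ i * P * b) (by simpa using hmod.symm)
          exact Dvd.dvd.mul_right ((Nat.modEq_zero_iff_dvd).1 h1) _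
        · simp only [hfi] at hmod
          have hij : i ≠ j := fun h0 => hne (by rw [h0])
          have h1 : (a * P) * μ i ≡ (a * P) * μ j [MOD l] := by
            have e1 : a * μ i * P * (a * μ j * b + 1) =
              (a * μ i * P * (a * μ j * b)) + a * P * μ i := by ring
            have e2 : a * μ j * P * (a * μ i * b + 1) =
              (a * μ i * P * (a * μ j * b)) + a * P * μ j := by ring
            rw [e1, e2] at hmod
            exact Nat.ModEq.add_left_cancel' _ hmod
          rcases modEq_sub hl h1 with h2 | h2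
          · rcases (Nat.Prime.dvd_mul hl).1 h2 with h3 | h3
            · exact Dvd.dvd.mul_left (Dvd.dvd.mul_right h3 _) _
            · exact Dvd.dvd.mul_right h3 _
          · exact Dvd.dvd.mul_left (Dvd.dvd.mul_left (h2.trans (Del_dvd K μ i j hij)) _) _) S (by
      intro n hn
      obtain ⟨h1, h2, h3⟩ := hS n hn
      refine ⟨h1, ?_⟩
      intro f hf l hl hlz
      rcases hFmem f hf with rfl | ⟨i, rfl⟩
      · simp only [hf0]
        rw [add_comm]
        exact h2 l hl hlz
      · simp only [hfi]
        have e : a * μ i * P * n + (a * μ i * b + 1) = a * μ i * (b + P * n) + 1 := by ring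
        rw [e]
        exact h3 i l hl hlz)
  rw [hcard] at key
  have hzr : (2 : ℝ) ≤ z := by exact_mod_cast hz
  have hlogz : 0 < Real.log z := Real.log_pos (by linarith)
  have hφP : (0 : ℝ) < P.totient := by exact_mod_cast Nat.totient_pos.2 hPpos
  have hPr : (0 : ℝ) < P := by exact_mod_cast hPpos
  have hφQ : (0 : ℝ) < Q.totient := by exact_mod_cast Nat.totient_pos.2 hQpos
  have hX : (X : ℝ) + (z : ℝ) ^ 3 ≤ 2 * X := by
    have : (z : ℝ) ^ 3 ≤ X := by exact_mod_cast hzX
    linarith
  have hratio := ratio_le R (a * Del K μ) (Nat.mul_pos ha hDpos)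
  rw [← hP, ← hQ] at hratio
  have hsig := sig_mul_le R a (Del K μ) ha hDpos
  have hratio2 : (Q : ℝ) / Q.totient ≤ (P : ℝ) / P.totient *
      Real.exp (2 * (sig R a + sig R (Del K μ))) := by
    refine hratio.trans ?_
    apply mul_le_mul_of_nonneg_left _ (by positivity)
    apply Real.exp_le_exp.2
    linarith
  refine key.trans ?_
  push_cast
  have hbase : ((K : ℝ) + 1) * Q / (Q.totient * Real.log z) ≤
      (((K : ℝ) + 1) * P / (P.totient * Real.log z)) *
        Real.exp (2 * (sig R a + sig R (Del K μ))) := by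
    have e1 : ((K : ℝ) + 1) * Q / (Q.totient * Real.log z) =
        ((K : ℝ) + 1) / Real.log z * ((Q : ℝ) / Q.totient) := by
      field_simp
    have e2 : (((K : ℝ) + 1) * P / (P.totient * Real.log z)) *
        Real.exp (2 * (sig R a + sig R (Del K μ))) =
        ((K : ℝ) + 1) / Real.log z * ((P : ℝ) / P.totient *
        Real.exp (2 * (sig R a + sig R (Del K μ)))) := by
      field_simp
    rw [e1, e2]
    exact mul_le_mul_of_nonneg_left hratio2 (by positivity)
  calc ((X : ℝ) + (z : ℝ) ^ 3) * (((K : ℝ) + 1) * Q / (Q.totient * Real.log z)) ^ (K + 1)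
      ≤ (2 * X) * ((((K : ℝ) + 1) * P / (P.totient * Real.log z)) *
        Real.exp (2 * (sig R a + sig R (Del K μ)))) ^ (K + 1) := by
        apply mul_le_mul hX _ (by positivity) (by positivity)
        exact pow_le_pow_left₀ (by positivity) hbase _
    _ = 2 * X * (((K : ℝ) + 1) * P / (P.totient * Real.log z)) ^ (K + 1) *
        Real.exp (2 * (K + 1) * (sig R a + sig R (Del K μ))) := by
        rw [mul_pow, ← Real.exp_nat_mul]
        push_cast
        have e3 : ((K : ℝ) + 1) * (2 * (sig R a + sig R (Del K μ))) =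
          2 * (K + 1) * (sig R a + sig R (Del K μ)) := by ring
        rw [e3]
        ring

end Pool.Agent.Helper26.TOT
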